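import Pool.Agent.V7H79.AC.Trans

/-!
Good pairs of words and homogeneous families.
-/

set_option autoImplicit false

namespace Pool.Agent.V7H79.AC

variable {Q S : Type}

/-- concatenation of blocks -/
def blk (U V : List S) : List Bool → List S
  | [] => []
  | b :: z => (if b then V else U) ++ blk U V z

theorem blk_length {U V : List S} (h : U.length = V.length) (z : List Bool) :
    (blk U V z).length = z.length * U.length := by
  induction z with
  | nil => simp [blk]
  | cons b z ih =>
    have : (if b then V else U).length = U.length := by cases b <;> simp [h]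
    rw [blk, List.length_append, ih, this, List.length_cons]
    ring

theorem blk_append (U V : List S) (z z' : List Bool) :
    blk U V (z ++ z') = blk U V z ++ blk U V z' := by
  induction z with
  | nil => rfl
  | cons b z ih => simp [blk, ih]

theorem blk_inj {U V : List S} (h : U.length = V.length) (hne : U ≠ V) {z z' : List Bool}
    (hl : z.length = z'.length) (he : blk U V z = blk U V z') : z = z' := by
  induction z generalizing z' with
  | nil =>
    cases z' with
    | nil => rfl
    | cons _ _ => simp at hl
  | cons b z ih =>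
    cases z' with
    | nil => simp at hl
    | cons b' z' =>
      simp only [List.length_cons, add_left_inj] at hl
      simp only [blk] at he
      obtain ⟨h1, h2⟩ := List.append_inj he (by cases b <;> cases b' <;> simp [h])
      rw [ih hl h2]
      congr 1
      cases b <;> cases b'
      · rfl
      · simp at h1; exact absurd h1 hne
      · simp at h1; exact absurd h1.symm hne
      · rfl

variable {step : Q → S → S → Q}

/-- the minimal rank property -/
def MinRk (step : Q → S → S → Q) (r : ℕ) : Prop :=
  ∀ X Y : List S, X.length = Y.length → X ≠ Y → r ≤ rk (run step X Y)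

variable [Finite Q]

omit [Finite Q] in
theorem exists_minRk (step : Q → S → S → Q) (hS : ∃ a b : S, a ≠ b) :
    ∃ r : ℕ, MinRk step r ∧ ∃ X Y : List S, X.length = Y.length ∧ X ≠ Y ∧
      rk (run step X Y) = r := by
  classical
  have hex : ∃ r : ℕ, ∃ X Y : List S, X.length = Y.length ∧ X ≠ Y ∧ rk (run step X Y) = r := by
    obtain ⟨a, b, hab⟩ := hS
    exact ⟨_, [a], [b], rfl, by simpa using hab, rfl⟩
  refine ⟨Nat.find hex, ?_, Nat.find_spec hex⟩
  intro X Y h1 h2
  exact Nat.find_min' hex ⟨X, Y, h1, h2, rfl⟩

/-- if some block pair is different then the rank is at most `r` -/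
theorem rk_blk_le {U V : List S} (h : U.length = V.length) {r : ℕ}
    (h1 : rk (run step U V) ≤ r) (h2 : rk (run step V U) ≤ r) {z z' : List Bool}
    (hl : z.length = z'.length) (hne : z ≠ z') : rk (run step (blk U V z) (blk U V z')) ≤ r := by
  induction z generalizing z' with
  | nil =>
    cases z' with
    | nil => exact absurd rfl hne
    | cons _ _ => simp at hl
  | cons b z ih =>
    cases z' with
    | nil => simp at hl
    | cons b' z' =>
      simp only [List.length_cons, add_left_inj] at hl
      simp only [blk]
      rw [run_append (by cases b <;> cases b' <;> simp [h])]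
      by_cases hb : b = b'
      · subst hb
        have hz : z ≠ z' := fun e => hne (by rw [e])
        exact (rk_comp_left _ _).trans (ih hl hz)
      · refine (rk_comp_right _ _).trans ?_
        cases b <;> cases b'
        · exact absurd rfl hb
        · simpa using h1
        · simpa using h2
        · exact absurd rfl hb

/-- good pairs -/
structure Good (step : Q → S → S → Q) (U V : List S) (e p q : Q → Q) (r : ℕ) : Prop where
  len : U.length = V.length
  ne : U ≠ V
  hUU : run step U U = e
  hVV : run step V V = e
  hUV : run step U V = p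
  hVU : run step V U = q
  ep : p ∘ e = p
  pe : e ∘ p = p
  eq : q ∘ e = q
  qe : e ∘ q = q
  rp : rk p ≤ r
  rq : rk q ≤ r
  min : MinRk step r

theorem exists_good (step : Q → S → S → Q) (hS : ∃ a b : S, a ≠ b) :
    ∃ (U V : List S) (e p q : Q → Q) (r : ℕ), Good step U V e p q r := by
  classical
  obtain ⟨r, hr, A₀, B₀, hl₀, hne₀, hrk₀⟩ := exists_minRk step hS
  -- both orders of minimal rank
  obtain ⟨A, B, hl, hne, h1, h2⟩ : ∃ A B : List S, A.length = B.length ∧ A ≠ B ∧
      rk (run step A B) ≤ r ∧ rk (run step B A) ≤ r := by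
    refine ⟨A₀ ++ B₀, B₀ ++ A₀, by simp [add_comm], ?_, ?_, ?_⟩
    · intro he
      exact hne₀ (List.append_inj he hl₀).1
    · rw [run_append hl₀]
      exact (rk_comp_right _ _).trans hrk₀.le
    · rw [run_append hl₀.symm]
      exact (rk_comp_left _ _).trans hrk₀.le
  -- pigeonhole
  obtain ⟨x, y, hxy, hlxy, he⟩ : ∃ x y : List Bool, x ≠ y ∧ x.length = y.length ∧
      run step (blk A B x) (blk A B x) = run step (blk A B y) (blk A B y) := by
    have : Fintype (Q → Q) := Fintype.ofFinite _
    obtain ⟨x, y, h3, h4⟩ := Fintype.exists_ne_map_eq_of_card_lt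
      (fun v : List.Vector Bool (Fintype.card (Q → Q)) =>
        run step (blk A B v.toList) (blk A B v.toList)) (by
          rw [card_vector, Fintype.card_bool]
          exact Nat.lt_two_pow_self)
    exact ⟨x.toList, y.toList, fun h => h3 (Subtype.ext h), by simp, h4⟩
  obtain ⟨n₀, hn₀, hidem⟩ := exists_power Q
  set X := blk A B x with hX
  set Y := blk A B y with hY
  have hXY : X.length = Y.length := by rw [hX, hY, blk_length hl, blk_length hl, hlxy]
  have hXYne : X ≠ Y := fun h => hxy (blk_inj hl hne hlxy h)
  set A₂ := rep n₀ X with hA₂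
  set B₂ := rep n₀ Y with hB₂
  set e := (run step X X)^[n₀] with he'
  have hee : e ∘ e = e := hidem _
  have hl₂ : A₂.length = B₂.length := by rw [hA₂, hB₂, rep_length, rep_length, hXY]
  have e1 : run step A₂ A₂ = e := run_rep rfl n₀
  have e2 : run step B₂ B₂ = e := by rw [hB₂, run_rep rfl, ← he]
  have hne₂ : A₂ ≠ B₂ := fun h => hXYne (rep_inj hn₀ hXY h)
  have rA : rk (run step A₂ B₂) ≤ r := by
    rw [hA₂, hB₂, run_rep hXY]
    obtain ⟨n, rfl⟩ : ∃ n, n₀ = n + 1 := ⟨n₀ - 1, by omega⟩
    rw [Function.iterate_succ]
    exact (rk_comp_right _ _).trans (rk_blk_le hl h1 h2 hlxy hxy)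
  have rB : rk (run step B₂ A₂) ≤ r := by
    rw [hA₂, hB₂, run_rep hXY.symm]
    obtain ⟨n, rfl⟩ : ∃ n, n₀ = n + 1 := ⟨n₀ - 1, by omega⟩
    rw [Function.iterate_succ]
    exact (rk_comp_right _ _).trans (rk_blk_le hl h1 h2 hlxy.symm hxy.symm)
  have c1 : run step (A₂ ++ B₂ ++ A₂) (A₂ ++ A₂ ++ A₂) = e ∘ run step B₂ A₂ ∘ e := by
    rw [run_append (by simp [hl₂]), run_append rfl, e1]
  have c2 : run step (A₂ ++ A₂ ++ A₂) (A₂ ++ B₂ ++ A₂) = e ∘ run step A₂ B₂ ∘ e := by
    rw [run_append (by simp [hl₂]), run_append rfl, e1]
  have hecomp : ∀ f : Q → Q, e ∘ (e ∘ f ∘ e) = e ∘ f ∘ e := fun f => by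
    rw [← Function.comp_assoc, hee]
  have hecomp' : ∀ f : Q → Q, (e ∘ f ∘ e) ∘ e = e ∘ f ∘ e := fun f => by
    rw [Function.comp_assoc, Function.comp_assoc, hee]
  refine ⟨A₂ ++ A₂ ++ A₂, A₂ ++ B₂ ++ A₂, e, e ∘ run step A₂ B₂ ∘ e, e ∘ run step B₂ A₂ ∘ e, r,
    ⟨by simp [hl₂], ?_, ?_, ?_, c2, c1, hecomp' _, hecomp _, hecomp' _, hecomp _, ?_, ?_, hr⟩⟩
  · intro h
    have h3 := List.append_cancel_left (List.append_cancel_right h)
    exact hne₂ h3
  · rw [run_append rfl, run_append rfl, e1, hee, hee]
  · rw [run_append rfl, run_append rfl, e1, e2, hee, hee]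
  · exact (rk_comp_right e (run step A₂ B₂ ∘ e)).trans ((rk_comp_left _ _).trans rA)
  · exact (rk_comp_right e (run step B₂ A₂ ∘ e)).trans ((rk_comp_left _ _).trans rB)

/-- the first difference is `U` against `V` -/
def Up : List Bool → List Bool → Prop
  | b :: z, b' :: z' => (b = b' ∧ Up z z') ∨ (b = false ∧ b' = true)
  | _, _ => False

theorem up_or {z z' : List Bool} (hl : z.length = z'.length) (hne : z ≠ z') :
    Up z z' ∨ Up z' z := by
  induction z generalizing z' with
  | nil =>
    cases z' with
    | nil => exact absurd rfl hne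
    | cons _ _ => simp at hl
  | cons b z ih =>
    cases z' with
    | nil => simp at hl
    | cons b' z' =>
      simp only [List.length_cons, add_left_inj] at hl
      by_cases hb : b = b'
      · subst hb
        have hz : z ≠ z' := fun e => hne (by rw [e])
        rcases ih hl hz with h | h
        · exact Or.inl (Or.inl ⟨rfl, h⟩)
        · exact Or.inr (Or.inl ⟨rfl, h⟩)
      · cases b <;> cases b'
        · exact absurd rfl hb
        · exact Or.inl (Or.inr ⟨rfl, rfl⟩)
        · exact Or.inr (Or.inr ⟨rfl, rfl⟩)
        · exact absurd rfl hb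

variable {U V : List S} {e p q : Q → Q} {r : ℕ}

theorem Good.ilen (h : Good step U V e p q r) (b b' : Bool) :
    (if b then V else U).length = (if b' then V else U).length := by
  cases b <;> cases b' <;> simp [h.len]

/-- the transformation begins and ends with `p` -/
theorem Good.up (h : Good step U V e p q r) {z z' : List Bool} (hl : z.length = z'.length)
    (hu : Up z z') : (∃ g, run step (blk U V z) (blk U V z') = g ∘ p) ∧
      ∃ g, run step (blk U V z.reverse) (blk U V z'.reverse) = p ∘ g := by
  induction z generalizing z' with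
  | nil => simp [Up] at hu
  | cons b z ih =>
    cases z' with
    | nil => simp at hl
    | cons b' z' =>
      simp only [List.length_cons, add_left_inj] at hl
      have hlr : (blk U V z.reverse).length = (blk U V z'.reverse).length := by
        rw [blk_length h.len, blk_length h.len, List.length_reverse, List.length_reverse, hl]
      have e1 : run step (blk U V (b :: z)) (blk U V (b' :: z')) =
          run step (blk U V z) (blk U V z') ∘
            run step (if b then V else U) (if b' then V else U) := by
        rw [blk, blk, run_append (h.ilen b b')]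
      have e2 : run step (blk U V (b :: z).reverse) (blk U V (b' :: z').reverse) =
          run step (if b then V else U) (if b' then V else U) ∘
            run step (blk U V z.reverse) (blk U V z'.reverse) := by
        rw [List.reverse_cons, List.reverse_cons, blk_append, blk_append, run_append hlr]
        simp [blk]
      rw [e1, e2]
      rcases hu with ⟨rfl, hu⟩ | ⟨rfl, rfl⟩
      · obtain ⟨⟨g, hg⟩, g', hg'⟩ := ih hl hu
        have e3 : run step (if b then V else U) (if b then V else U) = e := by
          cases b
          · exact h.hUU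
          · exact h.hVV
        rw [e3, hg, hg']
        refine ⟨⟨g, ?_⟩, g', ?_⟩
        · rw [Function.comp_assoc, h.ep]
        · rw [← Function.comp_assoc, h.pe]
      · have e3 : run step (if false = true then V else U) (if true = true then V else U) = p := h.hUV
        rw [e3]
        exact ⟨⟨_, rfl⟩, _, rfl⟩

/-- swapping the roles of the two words -/
theorem Good.down (h : Good step U V e p q r) {z z' : List Bool} (hl : z.length = z'.length)
    (hu : Up z z') : (∃ g, run step (blk U V z') (blk U V z) = g ∘ q) ∧
      ∃ g, run step (blk U V z'.reverse) (blk U V z.reverse) = q ∘ g := by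
  induction z generalizing z' with
  | nil => simp [Up] at hu
  | cons b z ih =>
    cases z' with
    | nil => simp at hl
    | cons b' z' =>
      simp only [List.length_cons, add_left_inj] at hl
      have hlr : (blk U V z'.reverse).length = (blk U V z.reverse).length := by
        rw [blk_length h.len, blk_length h.len, List.length_reverse, List.length_reverse, hl]
      have e1 : run step (blk U V (b' :: z')) (blk U V (b :: z)) =
          run step (blk U V z') (blk U V z) ∘
            run step (if b' then V else U) (if b then V else U) := by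
        rw [blk, blk, run_append (h.ilen b' b)]
      have e2 : run step (blk U V (b' :: z').reverse) (blk U V (b :: z).reverse) =
          run step (if b' then V else U) (if b then V else U) ∘
            run step (blk U V z'.reverse) (blk U V z.reverse) := by
        rw [List.reverse_cons, List.reverse_cons, blk_append, blk_append, run_append hlr]
        simp [blk]
      rw [e1, e2]
      rcases hu with ⟨rfl, hu⟩ | ⟨rfl, rfl⟩
      · obtain ⟨⟨g, hg⟩, g', hg'⟩ := ih hl hu
        have e3 : run step (if b then V else U) (if b then V else U) = e := by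
          cases b
          · exact h.hUU
          · exact h.hVV
        rw [e3, hg, hg']
        refine ⟨⟨g, ?_⟩, g', ?_⟩
        · rw [Function.comp_assoc, h.eq]
        · rw [← Function.comp_assoc, h.qe]
      · have e3 : run step (if true = true then V else U) (if false = true then V else U) = q := h.hVU
        rw [e3]
        exact ⟨⟨_, rfl⟩, _, rfl⟩

/-- the words of the homogeneous family -/
def fam (n₀ : ℕ) (U V : List S) (z : List Bool) : List S := rep n₀ (blk U V (z ++ z.reverse))

theorem Good.fam_length (h : Good step U V e p q r) (n₀ : ℕ) (z : List Bool) :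
    (fam n₀ U V z).length = z.length * (2 * n₀ * U.length) := by
  rw [fam, rep_length, blk_length h.len, List.length_append, List.length_reverse]
  ring

theorem Good.fam_inj (h : Good step U V e p q r) {n₀ : ℕ} (hn₀ : 0 < n₀) {z z' : List Bool}
    (hl : z.length = z'.length) (he : fam n₀ U V z = fam n₀ U V z') : z = z' := by
  have hl' : (z ++ z.reverse).length = (z' ++ z'.reverse).length := by simp [hl]
  have h1 := rep_inj hn₀ (by rw [blk_length h.len, blk_length h.len, hl']) he
  exact (List.append_inj (blk_inj h.len h.ne hl' h1) hl).1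

/-- an idempotent with the image and the kernel of `a` -/
theorem idem_of {a g f : Q → Q} {n₀ : ℕ} (hn₀ : 0 < n₀) (hid : ∀ f : Q → Q, f^[n₀] ∘ f^[n₀] = f^[n₀])
    (ha : rk a ≤ r) (hf : f = a ∘ g ∘ a) (hr : r ≤ rk (f^[n₀])) :
    Set.range (f^[n₀]) = Set.range a ∧ ∀ x y, f^[n₀] x = f^[n₀] y ↔ a x = a y := by
  obtain ⟨n, rfl⟩ : ∃ n, n₀ = n + 1 := ⟨n₀ - 1, by omega⟩
  have e1 : f^[n + 1] = (f^[n] ∘ a ∘ g) ∘ a := by
    rw [Function.iterate_succ]
    conv_lhs => rw [show (f^[n] ∘ f) = f^[n] ∘ (a ∘ g ∘ a) from by rw [← hf]]
    rfl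
  have e2 : f^[n + 1] = a ∘ (g ∘ a ∘ f^[n]) := by
    rw [Function.iterate_succ']
    conv_lhs => rw [show (f ∘ f^[n]) = (a ∘ g ∘ a) ∘ f^[n] from by rw [← hf]]
    rfl
  have hle1 : rk (f^[n + 1]) ≤ rk a := by rw [e1]; exact rk_comp_right _ _
  refine ⟨?_, fun x y => ⟨fun h => ?_, fun h => ?_⟩⟩
  · have h1 : rk (a ∘ (g ∘ a ∘ f^[n])) = rk a := by
      rw [← e2]; exact le_antisymm hle1 (ha.trans hr)
    rw [e2]
    exact range_eq h1
  · have h1 : rk ((f^[n] ∘ a ∘ g) ∘ a) = rk a := by
      rw [← e1]; exact le_antisymm hle1 (ha.trans hr)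
    rw [e1] at h
    exact ker_eq h1 h
  · rw [e1]
    simp only [Function.comp] at *
    rw [h]

/-- **The transformations are constant.** -/
theorem Good.const (h : Good step U V e p q r) {n₀ : ℕ} (hn₀ : 0 < n₀)
    (hid : ∀ f : Q → Q, f^[n₀] ∘ f^[n₀] = f^[n₀]) :
    ∃ Φ Ψ : Q → Q, ∀ z z' : List Bool, z.length = z'.length → Up z z' →
      run step (fam n₀ U V z) (fam n₀ U V z') = Φ ∧ run step (fam n₀ U V z') (fam n₀ U V z) = Ψ := by
  classical
  -- facts about one pair
  have key : ∀ z z' : List Bool, z.length = z'.length → Up z z' →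
      (∃ f : Q → Q, run step (fam n₀ U V z) (fam n₀ U V z') = f^[n₀] ∧
        Set.range (f^[n₀]) = Set.range p ∧ ∀ x y, f^[n₀] x = f^[n₀] y ↔ p x = p y) ∧
      ∃ f : Q → Q, run step (fam n₀ U V z') (fam n₀ U V z) = f^[n₀] ∧
        Set.range (f^[n₀]) = Set.range q ∧ ∀ x y, f^[n₀] x = f^[n₀] y ↔ q x = q y := by
    intro z z' hl hu
    have hne : z ≠ z' := by
      rintro rfl
      clear hl
      induction z with
      | nil => simp [Up] at hu
      | cons b z ih =>
        rcases hu with ⟨_, hu⟩ | ⟨h1, h2⟩
        · exact ih hu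
        · rw [h1] at h2; exact absurd h2 (by simp)
    have hbl : (blk U V (z ++ z.reverse)).length = (blk U V (z' ++ z'.reverse)).length := by
      rw [blk_length h.len, blk_length h.len]; simp [hl]
    have hbl' : (blk U V z).length = (blk U V z').length := by
      rw [blk_length h.len, blk_length h.len, hl]
    have hfne : fam n₀ U V z ≠ fam n₀ U V z' := fun he => hne (h.fam_inj hn₀ hl he)
    have hfl : (fam n₀ U V z).length = (fam n₀ U V z').length := by
      rw [h.fam_length, h.fam_length, hl]
    obtain ⟨⟨g, hg⟩, g', hg'⟩ := h.up hl hu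
    obtain ⟨⟨k, hk⟩, k', hk'⟩ := h.down hl hu
    constructor
    · refine ⟨run step (blk U V (z ++ z.reverse)) (blk U V (z' ++ z'.reverse)), run_rep hbl n₀, ?_⟩
      refine idem_of (r := r) (g := g' ∘ g) hn₀ hid h.rp ?_ ?_
      · rw [blk_append, blk_append, run_append hbl', hg, hg']
        rfl
      · rw [← run_rep hbl n₀]
        exact h.min _ _ hfl hfne
    · refine ⟨run step (blk U V (z' ++ z'.reverse)) (blk U V (z ++ z.reverse)),
        run_rep hbl.symm n₀, ?_⟩
      refine idem_of (r := r) (g := k' ∘ k) hn₀ hid h.rq ?_ ?_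
      · rw [blk_append, blk_append, run_append hbl'.symm, hk, hk']
        rfl
      · rw [← run_rep hbl.symm n₀]
        exact h.min _ _ hfl.symm hfne.symm
  obtain ⟨⟨f₀, _, a1, a2⟩, k₀, _, b1, b2⟩ := key [false] [true] rfl (Or.inr ⟨rfl, rfl⟩)
  refine ⟨f₀^[n₀], k₀^[n₀], fun z z' hl hu => ?_⟩
  obtain ⟨⟨f, c0, c1, c2⟩, k, d0, d1, d2⟩ := key z z' hl hu
  constructor
  · rw [c0]
    refine idem_unique (hid f) (hid f₀) (c1.trans a1.symm) ?_
    intro x y hxy
    exact (a2 x y).2 ((c2 x y).1 hxy)
  · rw [d0]
    refine idem_unique (hid k) (hid k₀) (d1.trans b1.symm) ?_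
    intro x y hxy
    exact (b2 x y).2 ((d2 x y).1 hxy)

end Pool.Agent.V7H79.AC
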