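import Pool.Agent.V7H79.AC.Hom

/-!
Digits of numbers and homogeneous sets of automatic colourings.
-/

set_option autoImplicit false

namespace Pool.Agent.V7H79.AC

/-- the last `L` base-`k` digits of `x`, the most significant digit first -/
def digits (k : ℕ) [NeZero k] : ℕ → ℕ → List (Fin k)
  | 0, _ => []
  | L + 1, x => digits k L (x / k) ++ [Fin.ofNat k x]

variable {k : ℕ} [NeZero k]

theorem digits_length (L x : ℕ) : (digits k L x).length = L := by
  induction L generalizing x with
  | zero => rfl
  | succ L ih => rw [digits, List.length_append, ih]; rfl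

theorem digits_add (a b x : ℕ) :
    digits k (a + b) x = digits k a (x / k ^ b) ++ digits k b x := by
  induction b generalizing x with
  | zero => simp [digits]
  | succ b ih =>
    rw [← add_assoc, digits, ih, digits, pow_succ', Nat.div_div_eq_div_mul, List.append_assoc]

/-- the value of a word -/
def val (w : List (Fin k)) : ℕ := w.foldl (fun a d => a * k + d) 0

theorem val_snoc (w : List (Fin k)) (d : Fin k) : val (w ++ [d]) = val w * k + d := by
  simp [val]

theorem val_lt (w : List (Fin k)) : val w < k ^ w.length := by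
  induction w using List.reverseRecOn with
  | nil => simp [val]
  | append_singleton w d ih =>
    rw [val_snoc, List.length_append, List.length_singleton, pow_succ]
    have h1 := d.isLt
    calc val w * k + d < val w * k + k := by omega
      _ = (val w + 1) * k := by ring
      _ ≤ k ^ w.length * k := Nat.mul_le_mul_right _ ih

theorem digits_val (w : List (Fin k)) : digits k w.length (val w) = w := by
  induction w using List.reverseRecOn with
  | nil => rfl
  | append_singleton w d ih =>
    have hk : 0 < k := Nat.pos_of_ne_zero (NeZero.ne k)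
    rw [val_snoc, List.length_append, List.length_singleton, digits]
    have h1 : (val w * k + d) / k = val w := by
      rw [mul_comm, Nat.mul_add_div hk, Nat.div_eq_of_lt d.isLt, add_zero]
    have h2 : Fin.ofNat k (val w * k + d) = d := by
      apply Fin.ext
      simp [Fin.ofNat, Nat.mod_eq_of_lt d.isLt]
    rw [h1, ih, h2]

theorem digits_val_of_le {L : ℕ} (w : List (Fin k)) (h : w.length ≤ L) :
    digits k L (val w) = digits k (L - w.length) 0 ++ w := by
  obtain ⟨a, rfl⟩ : ∃ a, L = a + w.length := ⟨L - w.length, by omega⟩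
  rw [digits_add, digits_val, Nat.div_eq_of_lt (val_lt w), Nat.add_sub_cancel]

theorem val_inj {w w' : List (Fin k)} (hl : w.length = w'.length) (h : val w = val w') : w = w' := by
  rw [← digits_val w, ← digits_val w', hl, h]

variable {Q : Type} [Finite Q]

/-- one automaton -/
theorem homogeneous (hk : 2 ≤ k) (step : Q → Fin k → Fin k → Q) :
    ∃ D : ℕ, 0 < D ∧ ∀ (q₀ : Q) (C : Type) (out : Q → C) (n L : ℕ), n ≤ k ^ L →
      (∀ x y : Fin n, x ≠ y → out (run step (digits k L x) (digits k L y) q₀) =
        out (run step (digits k L y) (digits k L x) q₀)) →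
      ∃ (H : Finset (Fin n)) (c : C), n ≤ H.card ^ D ∧
        ∀ x ∈ H, ∀ y ∈ H, x ≠ y → out (run step (digits k L x) (digits k L y) q₀) = c := by
  classical
  obtain ⟨U, V, e, p, q, r, hg⟩ := exists_good step
    (⟨⟨0, by omega⟩, ⟨1, by omega⟩, by simp⟩ : ∃ a b : Fin k, a ≠ b)
  obtain ⟨n₀, hn₀, hid⟩ := exists_power Q
  obtain ⟨Φ, Ψ, hΦ⟩ := hg.const hn₀ hid
  have hU : 0 < U.length := by
    rcases Nat.eq_zero_or_pos U.length with h | h
    · exfalso
      apply hg.ne
      rw [List.length_eq_zero_iff.1 h, List.length_eq_zero_iff.1 (hg.len.symm.trans h)]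
    · exact h
  set D₀ := 2 * n₀ * U.length with hD₀
  have hD₀pos : 0 < D₀ := by positivity
  refine ⟨2 * D₀ * k, by positivity, ?_⟩
  intro q₀ C out n L hnL hsym
  have hk2 : k ≤ 2 ^ k := Nat.lt_two_pow_self.le
  rcases Nat.lt_or_ge n 2 with hn2 | hn2
  · -- at most one vertex
    refine ⟨Finset.univ, out q₀, ?_, ?_⟩
    · rw [Finset.card_univ, Fintype.card_fin]
      exact Nat.le_self_pow (by positivity) _
    · intro x _ y _ hxy
      exact absurd (Fin.ext (by have := x.isLt; have := y.isLt; omega)) hxy
  have hB : 1 < k ^ D₀ := Nat.one_lt_pow hD₀pos.ne' (by omega)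
  set t := Nat.log (k ^ D₀) n with ht
  have ht1 : (k ^ D₀) ^ t ≤ n := Nat.pow_log_le_self _ (by omega)
  have ht2 : n < (k ^ D₀) ^ (t + 1) := Nat.lt_pow_succ_log_self hB n
  rcases Nat.eq_zero_or_pos t with ht0 | htpos
  · -- two vertices
    refine ⟨{⟨0, by omega⟩, ⟨1, by omega⟩}, out (run step (digits k L 0) (digits k L 1) q₀), ?_, ?_⟩
    · rw [Finset.card_pair (by simp)]
      rw [ht0, zero_add, pow_one] at ht2
      calc n ≤ k ^ D₀ := ht2.le
        _ ≤ (2 ^ k) ^ D₀ := Nat.pow_le_pow_left hk2 _
        _ = 2 ^ (D₀ * k) := by rw [← pow_mul, mul_comm]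
        _ ≤ 2 ^ (2 * D₀ * k) := Nat.pow_le_pow_right (by norm_num) (by nlinarith)
    · intro x hx y hy hxy
      simp only [Finset.mem_insert, Finset.mem_singleton] at hx hy
      rcases hx with rfl | rfl <;> rcases hy with rfl | rfl
      · exact absurd rfl hxy
      · rfl
      · exact hsym _ _ hxy
      · exact absurd rfl hxy
  -- the family
  have hlen : ∀ z : List.Vector Bool t, (fam n₀ U V z.toList).length = t * D₀ := by
    intro z
    rw [hg.fam_length, List.Vector.toList_length]
  have htL : t * D₀ ≤ L := by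
    have h1 : k ^ (t * D₀) ≤ k ^ L := by
      rw [mul_comm, pow_mul]
      exact ht1.trans hnL
    exact (Nat.pow_le_pow_iff_right (by omega)).1 h1
  have hvlt : ∀ z : List.Vector Bool t, val (fam n₀ U V z.toList) < n := by
    intro z
    refine lt_of_lt_of_le (val_lt _) ?_
    rw [hlen, mul_comm, pow_mul]
    exact ht1
  let ι : List.Vector Bool t → Fin n := fun z => ⟨val (fam n₀ U V z.toList), hvlt z⟩
  have hι : Function.Injective ι := by
    intro z z' h
    have h1 : val (fam n₀ U V z.toList) = val (fam n₀ U V z'.toList) := congrArg Fin.val h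
    have h2 := val_inj (by rw [hlen, hlen]) h1
    exact Subtype.ext (hg.fam_inj hn₀ (by simp) h2)
  have hcol : ∀ z z' : List.Vector Bool t, Up z.toList z'.toList →
      out (run step (digits k L (ι z)) (digits k L (ι z')) q₀) =
        out (Φ (run step (digits k (L - t * D₀) 0) (digits k (L - t * D₀) 0) q₀)) := by
    intro z z' hu
    have e1 : digits k L (ι z) = digits k (L - t * D₀) 0 ++ fam n₀ U V z.toList := by
      have := digits_val_of_le (L := L) (fam n₀ U V z.toList) (by rw [hlen]; exact htL)
      rw [hlen] at this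
      exact this
    have e2 : digits k L (ι z') = digits k (L - t * D₀) 0 ++ fam n₀ U V z'.toList := by
      have := digits_val_of_le (L := L) (fam n₀ U V z'.toList) (by rw [hlen]; exact htL)
      rw [hlen] at this
      exact this
    rw [e1, e2, run_append rfl, Function.comp, (hΦ z.toList z'.toList (by simp) hu).1]
  refine ⟨Finset.univ.image ι,
    out (Φ (run step (digits k (L - t * D₀) 0) (digits k (L - t * D₀) 0) q₀)), ?_, ?_⟩
  · rw [Finset.card_image_of_injective _ hι, Finset.card_univ, card_vector, Fintype.card_bool]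
    calc n ≤ (k ^ D₀) ^ (t + 1) := ht2.le
      _ ≤ ((2 ^ k) ^ D₀) ^ (t + 1) :=
        Nat.pow_le_pow_left (Nat.pow_le_pow_left hk2 _) _
      _ = 2 ^ (k * D₀ * (t + 1)) := by
        rw [← pow_mul, ← pow_mul]
        congr 1
        ring
      _ ≤ 2 ^ (t * (2 * D₀ * k)) := by
        apply Nat.pow_le_pow_right (by norm_num)
        have h1 : t + 1 ≤ 2 * t := by omega
        calc k * D₀ * (t + 1) ≤ k * D₀ * (2 * t) := Nat.mul_le_mul_left _ h1
          _ = t * (2 * D₀ * k) := by ring
      _ = (2 ^ t) ^ (2 * D₀ * k) := by rw [pow_mul]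
  · intro x hx y hy hxy
    obtain ⟨z, _, rfl⟩ := Finset.mem_image.1 hx
    obtain ⟨z', _, rfl⟩ := Finset.mem_image.1 hy
    have hzz : z.toList ≠ z'.toList := fun h => hxy (by rw [Subtype.ext h])
    rcases up_or (by simp) hzz with h | h
    · exact hcol z z' h
    · rw [hsym _ _ hxy]
      exact hcol z' z h

/-- **Automatic colourings.** -/
theorem uniform (k m : ℕ) [NeZero k] (hk : 2 ≤ k) :
    ∃ D : ℕ, ∀ (step : Fin m → Fin k → Fin k → Fin m) (q₀ : Fin m) (C : Type) (out : Fin m → C)
      (n L : ℕ), n ≤ k ^ L →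
      (∀ x y : Fin n, x ≠ y → out (run step (digits k L x) (digits k L y) q₀) =
        out (run step (digits k L y) (digits k L x) q₀)) →
      ∃ (H : Finset (Fin n)) (c : C), n ≤ H.card ^ D ∧
        ∀ x ∈ H, ∀ y ∈ H, x ≠ y → out (run step (digits k L x) (digits k L y) q₀) = c := by
  classical
  choose D hD0 hD using fun step : Fin m → Fin k → Fin k → Fin m => homogeneous hk step
  refine ⟨Finset.univ.sup D, ?_⟩
  intro step q₀ C out n L hnL hsym
  obtain ⟨H, c, h1, h2⟩ := hD step q₀ C out n L hnL hsym
  refine ⟨H, c, ?_, h2⟩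
  rcases Nat.eq_zero_or_pos H.card with h0 | h0
  · rw [h0, zero_pow (hD0 step).ne'] at h1
    omega
  · exact h1.trans (Nat.pow_le_pow_right h0 (Finset.le_sup (f := D) (Finset.mem_univ step)))

end Pool.Agent.V7H79.AC
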