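import Mathlib

/-!
Finite automata reading pairs of words: transformations of the states, minimal rank, homogeneous
families of words.
-/

set_option autoImplicit false

namespace Pool.Agent.V7H79.AC

variable {Q S : Type}

/-- the state reached from `q` after reading the pairs of letters of `X` and `Y` -/
def run (step : Q → S → S → Q) (X Y : List S) (q : Q) : Q :=
  (X.zip Y).foldl (fun q p => step q p.1 p.2) q

variable {step : Q → S → S → Q}

theorem run_append {X Y X' Y' : List S} (h : X.length = Y.length) :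
    run step (X ++ X') (Y ++ Y') = run step X' Y' ∘ run step X Y := by
  funext q
  simp only [run, Function.comp]
  rw [List.zip_append h, List.foldl_append]

theorem run_nil : run step [] [] = id := rfl

/-- repetition of a word -/
def rep (n : ℕ) (X : List S) : List S := (List.replicate n X).flatten

theorem rep_length (n : ℕ) (X : List S) : (rep n X).length = n * X.length := by
  simp [rep, List.length_flatten]

theorem rep_succ (n : ℕ) (X : List S) : rep (n + 1) X = X ++ rep n X := by
  simp [rep, List.replicate_succ]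

theorem rep_inj {n : ℕ} (hn : 0 < n) {X Y : List S} (h : X.length = Y.length)
    (he : rep n X = rep n Y) : X = Y := by
  obtain ⟨n, rfl⟩ : ∃ n', n = n' + 1 := ⟨n - 1, by omega⟩
  rw [rep_succ, rep_succ] at he
  exact (List.append_inj he h).1

theorem run_rep {X Y : List S} (h : X.length = Y.length) (n : ℕ) :
    run step (rep n X) (rep n Y) = (run step X Y)^[n] := by
  induction n with
  | zero => rfl
  | succ n ih =>
    rw [rep_succ, rep_succ, run_append h, ih]
    rfl

/-- size of the image -/
noncomputable def rk (f : Q → Q) : ℕ := (Set.range f).ncard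

variable [Finite Q]

theorem rk_comp_left (g f : Q → Q) : rk (g ∘ f) ≤ rk g :=
  Set.ncard_le_ncard (Set.range_comp_subset_range f g) (Set.toFinite _)

theorem rk_comp_right (g f : Q → Q) : rk (g ∘ f) ≤ rk f := by
  unfold rk
  rw [Set.range_comp]
  exact Set.ncard_image_le (Set.toFinite _)

theorem range_eq {g f : Q → Q} (h : rk (g ∘ f) = rk g) : Set.range (g ∘ f) = Set.range g :=
  Set.eq_of_subset_of_ncard_le (Set.range_comp_subset_range f g) h.ge (Set.toFinite _)

theorem ker_eq {g f : Q → Q} (h : rk (g ∘ f) = rk f) {x y : Q} (hxy : (g ∘ f) x = (g ∘ f) y) :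
    f x = f y := by
  unfold rk at h
  rw [Set.range_comp] at h
  have h1 : Set.InjOn g (Set.range f) := (Set.ncard_image_iff (Set.toFinite _)).1 h
  exact h1 ⟨x, rfl⟩ ⟨y, rfl⟩ hxy

omit [Finite Q] in
/-- idempotents with the same image and kernel are equal -/
theorem idem_unique {F F' : Q → Q} (h : F ∘ F = F) (h' : F' ∘ F' = F')
    (hr : Set.range F = Set.range F') (hk : ∀ x y, F x = F y → F' x = F' y) : F = F' := by
  funext x
  have h1 : F (F x) = F x := congrFun h x
  have h2 : F' (F x) = F' x := hk _ _ h1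
  have h3 : F x ∈ Set.range F' := hr ▸ ⟨x, rfl⟩
  obtain ⟨y, hy⟩ := h3
  rw [← h2, ← hy]
  exact (congrFun h' y).symm

/-- a common idempotent power -/
theorem exists_power (Q : Type) [Finite Q] : ∃ n : ℕ, 0 < n ∧ ∀ f : Q → Q, f^[n] ∘ f^[n] = f^[n] := by
  classical
  have h1 : ∀ f : Q → Q, ∃ n : ℕ, 0 < n ∧ f^[n] ∘ f^[n] = f^[n] := by
    intro f
    obtain ⟨i, j, hij, he⟩ := Finite.exists_ne_map_eq_of_infinite (fun n : ℕ => f^[n + 1])
    wlog hlt : i < j generalizing i j
    · exact this j i hij.symm he.symm (by omega)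
    obtain ⟨d, hd⟩ : ∃ d, j = i + d := ⟨j - i, by omega⟩
    have hd0 : 0 < d := by omega
    subst hd
    change f^[i + 1] = f^[i + d + 1] at he
    have e1 : ∀ n, i + 1 ≤ n → f^[n + d] = f^[n] := by
      intro n hn
      obtain ⟨c, rfl⟩ : ∃ c, n = c + (i + 1) := ⟨n - (i + 1), by omega⟩
      rw [show c + (i + 1) + d = c + (i + d + 1) by ring, Function.iterate_add, ← he,
        ← Function.iterate_add]
    have e2 : ∀ c n, i + 1 ≤ n → f^[n + c * d] = f^[n] := by
      intro c
      induction c with
      | zero => intro n _; simp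
      | succ c ih =>
        intro n hn
        rw [show n + (c + 1) * d = (n + c * d) + d by ring, e1 _ (by omega), ih n hn]
    refine ⟨(i + 1) * d, by positivity, ?_⟩
    rw [← Function.iterate_add]
    exact e2 (i + 1) _ (Nat.le_mul_of_pos_right _ hd0)
  choose n hn1 hn2 using h1
  haveI : Fintype (Q → Q) := Fintype.ofFinite _
  refine ⟨∏ f : Q → Q, n f, Finset.prod_pos fun f _ => hn1 f, fun f => ?_⟩
  obtain ⟨c, hc⟩ := Finset.dvd_prod_of_mem n (Finset.mem_univ f)
  rw [hc, Function.iterate_mul]
  have h3 : ∀ c : ℕ, (f^[n f])^[c] ∘ (f^[n f])^[c] = (f^[n f])^[c] := by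
    intro c
    induction c with
    | zero => rfl
    | succ c ih =>
      have hcomm : ∀ c : ℕ, (f^[n f])^[c] ∘ f^[n f] = f^[n f] ∘ (f^[n f])^[c] := by
        intro c
        funext x
        exact ((Function.Commute.refl (f^[n f])).iterate_left c) x
      have e3 : (f^[n f])^[c + 1] = (f^[n f])^[c] ∘ f^[n f] := Function.iterate_succ _ _
      calc (f^[n f])^[c + 1] ∘ (f^[n f])^[c + 1]
          = (f^[n f])^[c] ∘ (f^[n f] ∘ (f^[n f])^[c]) ∘ f^[n f] := by rw [e3]; rfl
        _ = (f^[n f])^[c] ∘ ((f^[n f])^[c] ∘ f^[n f]) ∘ f^[n f] := by rw [hcomm]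
        _ = ((f^[n f])^[c] ∘ (f^[n f])^[c]) ∘ (f^[n f] ∘ f^[n f]) := rfl
        _ = (f^[n f])^[c] ∘ f^[n f] := by rw [ih, hn2]
        _ = (f^[n f])^[c + 1] := e3.symm
  exact h3 c

end Pool.Agent.V7H79.AC
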